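import Pool.Agent.H29.T1.ZS
import Pool.Agent.H41.HYP.S3
import Pool.Agent.H70.HYP.NMU

/-!
# T1T, ZLDB: the classes of the twist, over `E`, where the twist is ramified and `E` is not
-/

set_option autoImplicit false

namespace Pool.T1

open Polynomial Matrix Pool.HYP Pool.TOW Pool.AVS IsDedekindDomain

namespace Zldb18

section Base

variable {R : Type} [CommRing R] [IsDedekindDomain R] {K : Type} [Field K] [Algebra R K]
  [IsFractionRing R K] {P : HeightOneSpectrum R} {ϖ : R} {L : Type} [Field L]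
  {O' : ValuationSubring L} {ι : K →+* L}

/-- The elements outside `P` are units. -/
theorem unit_of_not_mem (HC : UCP P ϖ L O' ι) {s : R} (hs : s ∉ P.asIdeal) :
    ι (algebraMap R K s) ≠ 0 ∧ (ι (algebraMap R K s))⁻¹ ∈ O' := by
  have hs0 : s ≠ 0 := by
    rintro rfl
    exact hs (Ideal.zero_mem _)
  have h0 : ι (algebraMap R K s) ≠ 0 :=
    (map_ne_zero ι).2 (fun h => hs0 (IsFractionRing.injective R K (by rw [h, map_zero])))
  refine ⟨h0, ?_⟩
  by_contra h
  exact hs ((HC.mem s).1 ((HC.loc.unif _ (HC.int s) h0).1 h))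

theorem uniformizer (HC : UCP P ϖ L O' ι) {d : R} (h1 : d ∈ P.asIdeal)
    (h2 : d ∉ P.asIdeal ^ 2) :
    UI (O' : Set L) (ι (algebraMap R K d) / ι (algebraMap R K ϖ)) := by
  have hd0 : d ≠ 0 := by
    rintro rfl
    exact h2 (Ideal.zero_mem _)
  have hd : ι (algebraMap R K d) ≠ 0 :=
    (map_ne_zero ι).2 (fun h => hd0 (IsFractionRing.injective R K (by rw [h, map_zero])))
  have hϖ : ϖ ∈ P.asIdeal := by
    rw [← HC.mem, div_self HC.loc.pi_ne]
    exact one_mem _
  obtain ⟨J, hJ⟩ : P.asIdeal ∣ Ideal.span {d} :=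
    Ideal.dvd_iff_le.2 ((Ideal.span_singleton_le_iff_mem _).2 h1)
  have hJP : ¬ J ≤ P.asIdeal := by
    intro h
    apply h2
    have h3 : d ∈ P.asIdeal * J := by
      rw [← hJ]
      exact Ideal.mem_span_singleton_self d
    rw [pow_two]
    exact Ideal.mul_mono_right h h3
  obtain ⟨s, hsJ, hsP⟩ := SetLike.not_le_iff_exists.1 hJP
  obtain ⟨r, hr⟩ : d ∣ ϖ * s := by
    rw [← Ideal.mem_span_singleton, hJ]
    exact Ideal.mul_mem_mul hϖ hsJ
  obtain ⟨hs0, hsi⟩ := unit_of_not_mem HC hsP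
  refine ⟨div_ne_zero hd HC.loc.pi_ne, (HC.mem d).2 h1, ?_⟩
  change (ι (algebraMap R K d) / ι (algebraMap R K ϖ))⁻¹ ∈ O'
  have h4 : (ι (algebraMap R K d) / ι (algebraMap R K ϖ))⁻¹ =
      ι (algebraMap R K r) * (ι (algebraMap R K s))⁻¹ := by
    rw [inv_div, ← div_eq_mul_inv, div_eq_div_iff hd hs0, ← map_mul, ← map_mul, ← map_mul,
      ← map_mul, hr, mul_comm]
  rw [h4]
  exact mul_mem (HC.int r) hsi

end Base

end Zldb18

open Zldb18

theorem zldb (hT : TW2Stmt) : ZLDBStmt := by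
  intro R _ _ K _ _ _ O π _ g P ϖ E _ _ L _ O' ι hg HC f d α c γ x hf hn hγ hfL hPd hPd2 hα hN
    hL hx
  obtain ⟨u, w, s, hu, huf, hud, hs⟩ := hL
  have hfK : (fkE K E f).Monic := (hf.map _).map _
  have hmap : (fkE K E (f.scaleRoots d)).map ι =
      (oL O' ((X - C c) * γ)).scaleRoots (ι (algebraMap K E (algebraMap R K d))) := by
    have hf0 : ∀ {A : Type} [CommRing A] [Nontrivial A] (φ : R →+* A), φ f.leadingCoeff ≠ 0 := by
      intro A _ _ φ
      rw [hf.leadingCoeff, map_one]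
      exact one_ne_zero
    rw [← hfL, fkE, fkE, fk, fk, Polynomial.map_scaleRoots _ _ _ (hf0 _),
      Polynomial.map_scaleRoots, Polynomial.map_scaleRoots]
    · rw [hfK.leadingCoeff, map_one]
      exact one_ne_zero
    · have h1 : (f.map (algebraMap R K)).Monic := hf.map _
      rw [h1.leadingCoeff, map_one]
      exact one_ne_zero
  rw [hmap] at huf hud
  rw [hfL] at hs
  have hα' : IsCoprime (α.map ι) (oL O' ((X - C c) * γ)) := by
    rw [← hfL]
    exact hα.map (mapRingHom ι)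
  have hN' : NSq (oL O' ((X - C c) * γ)) (α.map ι) := by
    rw [← hfL, NSq, Pool.HYP.nmu.2.2.2 E L ι (fkE K E f) α hfK]
    exact hN.map ι
  exact hT L O' (ι (algebraMap K E (algebraMap R K ϖ))) HC.loc g c γ hg hγ
    (ι (algebraMap K E (algebraMap R K d))) (uniformizer HC hPd hPd2) u w s (α.map ι) x hu huf hud
    hs hα' hN' hx

end Pool.T1
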